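import Pool.Agent.Helper45.BK.HL

/-!
# MP_03bcbb_an: hereditary approximation property without the Lidskii formula

There is a complex Banach space, the Hilbert sum of a sequence of finite-dimensional normed spaces,
all of whose closed subspaces have the approximation property, and which is not a Lidskii space.
The same result as the proof of the frozen statement `S03696`, in the words of the problem file
(eigenvalues as a list, nuclear representations with convergent series), with more information on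
the space and on the operator.
-/

set_option autoImplicit false

noncomputable section

namespace Pool.Agent.Results.MP_03bcbb_an.HereditaryAPNotLidskii

section

variable (X : Type) [NormedAddCommGroup X] [NormedSpace ℂ X]

/-- The approximation property: the identity is a limit of bounded finite-rank operators,
uniformly on every compact set. -/
def HasAP : Prop :=
  ∀ K : Set X, IsCompact K → ∀ ε : ℝ, 0 < ε →
    ∃ F : X →L[ℂ] X, FiniteDimensional ℂ (LinearMap.range (F : X →ₗ[ℂ] X)) ∧
      ∀ x ∈ K, ‖F x - x‖ < ε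

/-- Every closed subspace (`X` included) has the approximation property. -/
def HereditaryAP : Prop :=
  ∀ Y : Submodule ℂ X, IsClosed (Y : Set X) → HasAP Y

variable {X}

/-- `T = ∑ f n (·) x n` is a nuclear representation of `T`. -/
def IsNuclearRep (T : X →L[ℂ] X) (f : ℕ → X →L[ℂ] ℂ) (x : ℕ → X) : Prop :=
  Summable (fun n => ‖f n‖ * ‖x n‖) ∧ ∀ y, HasSum (fun n => f n y • x n) (T y)

/-- The family `l` lists the nonzero eigenvalues of `T` with algebraic multiplicity: `μ ≠ 0` occurs
as often as the dimension of the generalised eigenspace says. -/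
def ListsEigenvalues (T : X →L[ℂ] X) {ι : Type} (l : ι → ℂ) : Prop :=
  (∀ i, l i ≠ 0) ∧ ∀ μ : ℂ, μ ≠ 0 → Cardinal.mk {i // l i = μ} =
    Module.rank ℂ (Module.End.maxGenEigenspace (T : X →ₗ[ℂ] X) μ)

variable (X)

/-- Lidskii spaces: the approximation property and the trace formula for all nuclear operators
whose eigenvalues are absolutely summable. -/
def IsLidskii : Prop :=
  HasAP X ∧ ∀ (T : X →L[ℂ] X) (f : ℕ → X →L[ℂ] ℂ) (x : ℕ → X), IsNuclearRep T f x →
    ∀ (ι : Type) (l : ι → ℂ), ListsEigenvalues T l → Summable (fun i => ‖l i‖) →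
      ∑' n, f n (x n) = ∑' i, l i

/-- There is a nuclear operator `T` on `X` with trace `0` and `T ^ 3 = T ^ 2`, whose nonzero
eigenvalues are listed by the number `1`, once (so that `T ^ 2` is a projection of rank one). -/
def HasTraceZeroOperator : Prop :=
  ∃ (T : X →L[ℂ] X) (f : ℕ → X →L[ℂ] ℂ) (x : ℕ → X),
    IsNuclearRep T f x ∧ ∑' n, f n (x n) = 0 ∧ (∀ y, T (T (T y)) = T (T y)) ∧
    ListsEigenvalues T (fun _ : Unit => (1 : ℂ))

end

section

variable {X : Type} [NormedAddCommGroup X] [NormedSpace ℂ X]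

theorem lists (T : X →L[ℂ] X) (h3 : ∀ y, T (T (T y)) = T (T y))
    (h1 : Module.finrank ℂ (LinearMap.range ((T.comp T : X →L[ℂ] X) : X →ₗ[ℂ] X)) = 1) :
    ListsEigenvalues T (fun _ : Unit => (1 : ℂ)) := by
  refine ⟨fun _ => one_ne_zero, fun μ hμ => ?_⟩
  by_cases h : μ = 1
  · subst h
    have e1 : Module.End.maxGenEigenspace (T : X →ₗ[ℂ] X) 1 =
        LinearMap.range ((T.comp T : X →L[ℂ] X) : X →ₗ[ℂ] X) :=
      Pool.Agent.Helper99.HL.eig_one (T : X →ₗ[ℂ] X) h3
    have e2 : Module.rank ℂ (LinearMap.range ((T.comp T : X →L[ℂ] X) : X →ₗ[ℂ] X)) = 1 :=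
      Module.rank_eq_one_iff_finrank_eq_one.2 h1
    rw [e1, e2]
    have : Unique {i : Unit // (fun _ : Unit => (1 : ℂ)) i = 1} := ⟨⟨⟨(), rfl⟩⟩, fun _ => rfl⟩
    exact Cardinal.mk_fintype _ |>.trans (by simp)
  · have e1 : Module.End.maxGenEigenspace (T : X →ₗ[ℂ] X) μ = ⊥ :=
      Pool.Agent.Helper99.HL.eig_bot (T : X →ₗ[ℂ] X) h3 μ hμ h
    rw [e1]
    have : IsEmpty {i : Unit // (fun _ : Unit => (1 : ℂ)) i = μ} := ⟨fun i => h i.2.symm⟩
    simp

theorem nuclear [CompleteSpace X] (T : X →L[ℂ] X) (f : ℕ → X →L[ℂ] ℂ) (x : ℕ → X)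
    (h1 : Summable (fun i => ‖f i‖ * ‖x i‖)) (h2 : ∀ y, T y = ∑' i, f i y • x i) :
    IsNuclearRep T f x := by
  refine ⟨h1, fun y => ?_⟩
  have hs : Summable (fun n => f n y • x n) := by
    refine Summable.of_norm_bounded (g := fun n => (‖f n‖ * ‖x n‖) * ‖y‖) (h1.mul_right _)
      fun n => ?_
    rw [norm_smul]
    calc ‖f n y‖ * ‖x n‖ ≤ (‖f n‖ * ‖y‖) * ‖x n‖ := by
          gcongr
          exact (f n).le_opNorm y
      _ = _ := by ring
  rw [h2 y]
  exact hs.hasSum

theorem not_lidskii (h : HasTraceZeroOperator X) : ¬ IsLidskii X := by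
  obtain ⟨T, f, x, hT, h3, _, hl⟩ := h
  intro h
  have h6 := h.2 T f x hT Unit (fun _ => (1 : ℂ)) hl (Summable.of_finite)
  rw [h3, tsum_fintype] at h6
  simp at h6

end

/-- **Theorem.** There are finite-dimensional complex normed spaces `E k` such that their Hilbert
sum `X = (⊕ E k)_2` is a Banach space all of whose closed subspaces have the approximation property,
and `X` is not a Lidskii space: there is a nuclear operator `T` on `X` with trace `0` and
`T ^ 3 = T ^ 2`, whose only nonzero eigenvalue is `1`, of multiplicity one. -/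
theorem result :
    ∃ (E : ℕ → Type) (_ : ∀ k, NormedAddCommGroup (E k)) (_ : ∀ k, NormedSpace ℂ (E k)),
      (∀ k, FiniteDimensional ℂ (E k)) ∧ CompleteSpace (lp E 2) ∧ HereditaryAP (lp E 2) ∧
      ¬ IsLidskii (lp E 2) ∧ HasTraceZeroOperator (lp E 2) := by
  obtain ⟨s, hY, f, x, T, h1, h2, h3, h4, h5⟩ := Pool.Agent.Helper45.BK.HL.all
  have hop : HasTraceZeroOperator (Pool.Agent.Helper25.HL.XX s.P s.D) :=
    ⟨T, f, x, nuclear T f x h1 h2, h3, h4, lists T h4 h5⟩
  exact ⟨fun k => Pool.Agent.Helper25.HL.LV (s.D k), fun k => inferInstance,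
    fun k => inferInstance, fun k => inferInstance, inferInstance, hY, not_lidskii hop, hop⟩

end Pool.Agent.Results.MP_03bcbb_an.HereditaryAPNotLidskii
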