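import Pool.Agent.Helper25.LS.All

/-!
# Slow growth of the Euclidean distances implies the Lidskii property

There is a function `φ → ∞` such that every complex Banach space whose subspaces of dimension at
most `n` are `φ n`-isomorphic to Euclidean spaces, for infinitely many `n`, is a Lidskii space,
together with all its subquotients; and the class contains non-Hilbertian spaces.
-/

set_option autoImplicit false

open Filter Topology

noncomputable section

namespace Pool.Agent.Results.MP_03bcbb_an.SlowGrowthLidskii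

/-- Every subspace `E` of `X` with `dim E ≤ n` is `C`-isomorphic to a Euclidean space: there is
an isomorphism `u` of `E` onto a space `ℂ^m` with its Euclidean norm and `‖u‖ ‖u⁻¹‖ ≤ C`. -/
def HilbertDistLE (X : Type) [NormedAddCommGroup X] [NormedSpace ℂ X] (n : ℕ) (C : ℝ) : Prop :=
  ∀ E : Submodule ℂ X, FiniteDimensional ℂ E → Module.finrank ℂ E ≤ n →
    ∃ (m : ℕ) (u : E ≃L[ℂ] EuclideanSpace ℂ (Fin m)),
      ‖(u : E →L[ℂ] EuclideanSpace ℂ (Fin m))‖ *
        ‖(u.symm : EuclideanSpace ℂ (Fin m) →L[ℂ] E)‖ ≤ C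

/-- The approximation property. -/
def HasAP (X : Type) [NormedAddCommGroup X] [NormedSpace ℂ X] : Prop :=
  ∀ K : Set X, IsCompact K → ∀ ε : ℝ, 0 < ε →
    ∃ S : X →L[ℂ] X, FiniteDimensional ℂ (LinearMap.range (S : X →ₗ[ℂ] X)) ∧
      ∀ x ∈ K, ‖S x - x‖ < ε

/-- The trace formula: for every nuclear representation of every nuclear operator `T` whose
eigenvalues, counted with algebraic multiplicity, are absolutely summable, the nuclear trace is
the sum of the eigenvalues. -/
def TraceFormula (X : Type) [NormedAddCommGroup X] [NormedSpace ℂ X] : Prop :=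
  ∀ (f : ℕ → X →L[ℂ] ℂ) (x : ℕ → X) (T : X →L[ℂ] X),
    Summable (fun i => ‖f i‖ * ‖x i‖) →
    (∀ y, T y = ∑' i, f i y • x i) →
    Summable (fun μ : ℂ =>
      (Module.finrank ℂ (Module.End.maxGenEigenspace (T : X →ₗ[ℂ] X) μ) : ℝ) * ‖μ‖) →
    ∑' i, f i (x i) =
      ∑' μ : ℂ, (Module.finrank ℂ (Module.End.maxGenEigenspace (T : X →ₗ[ℂ] X) μ) : ℂ) * μ

/-- Lidskii spaces. -/
def IsLidskii (X : Type) [NormedAddCommGroup X] [NormedSpace ℂ X] : Prop :=
  HasAP X ∧ TraceFormula X

theorem result :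
    ∃ φ : ℕ → ℝ, Tendsto φ atTop atTop ∧
      (∀ (X : Type) [NormedAddCommGroup X] [NormedSpace ℂ X] [CompleteSpace X],
        (∃ᶠ n in atTop, HilbertDistLE X n (φ n)) →
          IsLidskii X ∧
          ∀ Y : Submodule ℂ X, IsClosed (Y : Set X) → IsLidskii Y ∧
            ∀ (Z : Submodule ℂ Y) [IsClosed (Z : Set Y)], IsLidskii (Y ⧸ Z)) ∧
      ∃ (X : Type) (_ : NormedAddCommGroup X) (_ : NormedSpace ℂ X) (_ : CompleteSpace X),
        (∀ᶠ n in atTop, HilbertDistLE X n (φ n)) ∧
        ∀ (H : Type) [NormedAddCommGroup H] [InnerProductSpace ℂ H], IsEmpty (X ≃L[ℂ] H) :=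
  Pool.Agent.Helper25.LS.h_sg

end Pool.Agent.Results.MP_03bcbb_an.SlowGrowthLidskii
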